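import Pool.Agent.Helper70.MM.Goals5
import Pool.Agent.Helper42.MM5.AVG

/-!
# MM5-SDER: second and third derivative of the potential of a sphere
-/

set_option autoImplicit false

open MeasureTheory Set Metric Filter
open scoped ENNReal RealInnerProductSpace Topology
open Pool.Agent.Results.MP_91ee6f_gt
open Pool.Agent.Helper70.MM
open Pool.Agent.Helper42.MM5

namespace Pool.Agent.Helper96.MM

/-- the second derivative at `0` of a radial function along a tangent -/
theorem radial {g H : ℝ → ℝ} {g' r L δ : ℝ} (hr : 0 < r) (hδ : 0 < δ) (hg : HasDerivAt g g' r)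
    (h1 : ∀ t, |t| < δ → HasDerivAt (fun t => g (Real.sqrt (r ^ 2 + t ^ 2))) (H t) t)
    (h2 : HasDerivAt H L 0) : g' = r * L := by
  set k : ℝ → ℝ := fun τ => g (Real.sqrt (r ^ 2 + τ)) with hk
  have hkd : HasDerivAt k (g' * (1 / (2 * r))) 0 := by
    have hs : HasDerivAt (fun τ : ℝ => Real.sqrt (r ^ 2 + τ))
        (1 / (2 * Real.sqrt (r ^ 2 + 0))) 0 :=
      ((hasDerivAt_id (0:ℝ)).const_add (r ^ 2)).sqrt (by simpa using hr.ne')
    have e : Real.sqrt (r ^ 2 + 0) = r := by rw [add_zero, Real.sqrt_sq hr.le]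
    rw [e] at hs
    have hg' : HasDerivAt g g' (Real.sqrt (r ^ 2 + 0)) := by rw [e]; exact hg
    exact HasDerivAt.comp 0 hg' hs
  have hH0 : H 0 = 0 := by
    have a := h1 0 (by simpa using hδ)
    have b : HasDerivAt (k ∘ fun t : ℝ => t ^ 2) (g' * (1 / (2 * r)) * (2 * 0)) 0 := by
      have c : HasDerivAt (fun t : ℝ => t ^ 2) (2 * 0) 0 := by simpa using hasDerivAt_pow 2 (0:ℝ)
      have d : HasDerivAt k (g' * (1 / (2 * r))) ((0:ℝ) ^ 2) := by simpa using hkd
      exact HasDerivAt.comp (0:ℝ) d c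
    have h := a.unique b
    simpa using h
  have l1 : Tendsto (fun t : ℝ => (k (t ^ 2) - k 0) / t ^ 2) (𝓝[≠] 0)
      (𝓝 (g' * (1 / (2 * r)))) := by
    have a := hasDerivAt_iff_tendsto_slope.1 hkd
    have b : Tendsto (fun t : ℝ => t ^ 2) (𝓝[≠] 0) (𝓝[≠] 0) := by
      refine tendsto_nhdsWithin_iff.2 ⟨?_, ?_⟩
      · have h : Continuous fun t : ℝ => t ^ 2 := by fun_prop
        have h' := h.tendsto 0
        have e : (0:ℝ) ^ 2 = 0 := by norm_num
        rw [e] at h'
        exact h'.mono_left nhdsWithin_le_nhds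
      · filter_upwards [self_mem_nhdsWithin] with t ht
        exact pow_ne_zero 2 ht
    refine (a.comp b).congr fun t => ?_
    simp [slope_def_field]
  have l2 : Tendsto (fun t : ℝ => (k (t ^ 2) - k 0) / t ^ 2) (𝓝[≠] 0) (𝓝 (L / 2)) := by
    have hev : ∀ᶠ t in 𝓝[≠] (0:ℝ), |t| < δ := by
      have : ∀ᶠ t in 𝓝 (0:ℝ), |t| < δ := by
        have h : Continuous fun t : ℝ => |t| := continuous_abs
        have h' := h.tendsto 0
        rw [abs_zero] at h'
        exact h'.eventually (gt_mem_nhds hδ)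
      exact this.filter_mono nhdsWithin_le_nhds
    refine HasDerivAt.lhopital_zero_nhdsNE (f := fun t : ℝ => k (t ^ 2) - k 0)
      (g := fun t : ℝ => t ^ 2) (f' := H) (g' := fun t => 2 * t) ?_ ?_ ?_ ?_ ?_ ?_
    · filter_upwards [hev] with t ht
      exact (h1 t ht).sub_const _
    · filter_upwards with t
      simpa using hasDerivAt_pow 2 t
    · filter_upwards [self_mem_nhdsWithin] with t ht
      exact mul_ne_zero two_ne_zero ht
    · have a : ContinuousAt (fun t : ℝ => k (t ^ 2)) 0 :=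
        (h1 0 (by simpa using hδ)).continuousAt
      have b := a.tendsto.sub_const (k 0)
      simp only [ne_eq, OfNat.ofNat_ne_zero, not_false_eq_true, zero_pow, sub_self] at b
      exact b.mono_left nhdsWithin_le_nhds
    · have h : Continuous fun t : ℝ => t ^ 2 := by fun_prop
      have h' := h.tendsto 0
      have e : (0:ℝ) ^ 2 = 0 := by norm_num
      rw [e] at h'
      exact h'.mono_left nhdsWithin_le_nhds
    · have a := hasDerivAt_iff_tendsto_slope.1 h2
      have b := a.div_const 2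
      refine b.congr fun t => ?_
      simp only [slope_def_field, hH0, sub_zero]
      rw [div_div, mul_comm t 2]
  have := tendsto_nhds_unique l1 l2
  field_simp at this
  linarith

theorem exists_three {n : ℕ} (hn : 3 ≤ n) {e : En n} (he : ‖e‖ = 1) :
    ∃ e' e'' : En n, Orthonormal ℝ ![e, e', e''] := by
  obtain ⟨b, hb⟩ := h42_basis (⟨0, by omega⟩ : Fin n) e he
  refine ⟨b ⟨1, by omega⟩, b ⟨2, by omega⟩, ?_⟩
  have hinj : Function.Injective ![(⟨0, by omega⟩ : Fin n), ⟨1, by omega⟩, ⟨2, by omega⟩] := by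
    intro i j hij
    fin_cases i <;> fin_cases j <;> simp_all
  have h := b.orthonormal.comp _ hinj
  have e1 : ![e, b ⟨1, by omega⟩, b ⟨2, by omega⟩] =
      b ∘ ![(⟨0, by omega⟩ : Fin n), ⟨1, by omega⟩, ⟨2, by omega⟩] := by
    funext i
    fin_cases i <;> simp [hb]
  rw [e1]
  exact h

theorem exists_third {n : ℕ} (hn : 3 ≤ n) {e e' : En n} (he : ‖e‖ = 1) (he' : ‖e'‖ = 1)
    (h0 : inner ℝ e e' = 0) : ∃ e'' : En n, Orthonormal ℝ ![e, e', e''] := by
  set i0 : Fin n := ⟨0, by omega⟩ with hi0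
  set i1 : Fin n := ⟨1, by omega⟩ with hi1
  have hne : i0 ≠ i1 := by
    intro h
    exact absurd (congrArg Fin.val h) (by norm_num [hi0, hi1])
  have h0' : inner ℝ e' e = 0 := by rw [real_inner_comm, h0]
  have hv : Orthonormal ℝ (({i0, i1} : Set (Fin n)).domRestrict
      (fun i => if i = i0 then e else e')) := by
    refine ⟨fun i => ?_, fun i j hij => ?_⟩
    · simp only [domRestrict_apply]
      split_ifs <;> assumption
    · obtain ⟨i, hi⟩ := i
      obtain ⟨j, hj⟩ := j
      have hij' : i ≠ j := fun h => hij (Subtype.ext h)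
      simp only [domRestrict_apply]
      rcases hi with rfl | hi
      · rcases hj with rfl | hj
        · exact absurd rfl hij'
        · rw [mem_singleton_iff] at hj
          subst hj
          rw [if_pos rfl, if_neg hne.symm]
          exact h0
      · rw [mem_singleton_iff] at hi
        subst hi
        rcases hj with rfl | hj
        · rw [if_pos rfl, if_neg hne.symm]
          exact h0'
        · rw [mem_singleton_iff] at hj
          exact absurd hj.symm hij'
  obtain ⟨b, hb⟩ := hv.exists_orthonormalBasis_extension_of_card_eq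
    (by simp : Module.finrank ℝ (En n) = Fintype.card (Fin n))
  have hb0 : b i0 = e := by
    have := hb i0 (by simp)
    simpa using this
  have hb1 : b i1 = e' := by
    have := hb i1 (by simp)
    rw [if_neg hne.symm] at this
    exact this
  refine ⟨b ⟨2, by omega⟩, ?_⟩
  have hinj : Function.Injective ![i0, i1, (⟨2, by omega⟩ : Fin n)] := by
    intro i j hij
    fin_cases i <;> fin_cases j <;> simp_all [Fin.ext_iff]
  have h := b.orthonormal.comp _ hinj
  have e1 : ![e, e', b ⟨2, by omega⟩] = b ∘ ![i0, i1, (⟨2, by omega⟩ : Fin n)] := by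
    funext i
    fin_cases i <;> simp [hb0, hb1]
  rw [e1]
  exact h

theorem dist_lower {n : ℕ} (hn : 1 ≤ n) {s : ℝ} (hs : 0 ≤ s) (x : En n) :
    ∀ᵐ y ∂(sphUnif n s), |‖x‖ - s| ≤ dist x y := by
  filter_upwards [(fSPH1 n hn s).2.1 hs] with y hy
  rw [dist_eq_norm, ← hy]
  exact abs_norm_sub_norm_le x y

theorem ff_rot {n : ℕ} {e e1 : En n} (he : ‖e‖ = 1) (he1 : ‖e1‖ = 1) (s r : ℝ) :
    FF e s r = FF e1 s r := by
  obtain ⟨g, hg, -⟩ := h42_refl (he.trans he1.symm)
  unfold FF
  rw [← h42_inv s g (fun y => rh e1 y / ((n : ℝ) - 1) * om 2 (dist (r • e1) y) -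
    om 1 (dist (r • e1) y))]
  congr 1
  ext y
  have h1 : dist (r • e1) (g y) = dist (r • e) y := by
    have : r • e1 = g (r • e) := by rw [map_smul, hg]
    rw [this]
    exact g.dist_map _ _
  have h2 : rh e1 (g y) = rh e y := by
    unfold rh
    rw [← hg, g.inner_map_map, g.norm_map]
  rw [h1, h2]

theorem pot_rot {n : ℕ} {e : En n} (he : ‖e‖ = 1) (s : ℝ) (x : En n) :
    potential (sphUnif n s) x = PP e s ‖x‖ := by
  have hnorm : ‖‖x‖ • e‖ = ‖x‖ := by rw [norm_smul, he, mul_one, norm_norm]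
  obtain ⟨g, hg, -⟩ := h42_refl hnorm
  unfold PP potential
  rw [← h42_inv s g (fun y => Real.exp (-dist x y))]
  congr 1
  ext y
  have h1 : dist x (g y) = dist (‖x‖ • e) y := by
    rw [← g.dist_map (‖x‖ • e) y, hg]
  rw [h1]

theorem U_zero {n : ℕ} (ν : Measure (En n)) (x : En n) : U ν 0 x = potential ν x := by
  unfold U potential
  simp only [om_zero]

/-- the second derivative of `F_s` in a direction `e'` orthogonal to `e1` -/
theorem ff_formula (hA : AVG) {n : ℕ} (hn : 3 ≤ n) {e1 e' : En n} (he1 : ‖e1‖ = 1)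
    (he' : ‖e'‖ = 1) (h0 : inner ℝ e1 e' = 0) {s ρ : ℝ} (hs : 0 ≤ s)
    (h1 : Integrable (fun y => om 1 (dist (ρ • e1) y)) (sphUnif n s))
    (h2 : Integrable (fun y => om 2 (dist (ρ • e1) y)) (sphUnif n s)) :
    ∫ y, om 2 (dist (ρ • e1) y) * (inner ℝ y e') ^ 2 ∂(sphUnif n s) -
      ∫ y, om 1 (dist (ρ • e1) y) ∂(sphUnif n s) = FF e1 s ρ := by
  obtain ⟨e'', ho⟩ := exists_third hn he1 he' h0
  have h3 := (((hA n hn e1 e' e'' ho s ρ hs).1) (om 2) h2).1
  rw [h3]
  have hc : Continuous fun y : En n => rh e1 y / ((n : ℝ) - 1) := by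
    unfold rh
    fun_prop
  have h4 := h42_int (by omega) hs h2 _ hc
  unfold FF
  rw [← integral_sub h4 h1]
  congr 1
  ext y
  ring

/-- the measure `⟪y,e'⟫² σ_s` -/
noncomputable def sw (n : ℕ) (s : ℝ) (e' : En n) : Measure (En n) :=
  (sphUnif n s).withDensity (fun y => ENNReal.ofReal ((inner ℝ y e' : ℝ) ^ 2))

theorem sw_meas {n : ℕ} (e' : En n) :
    Measurable (fun y : En n => ENNReal.ofReal ((inner ℝ y e' : ℝ) ^ 2)) := by
  have : Continuous fun y : En n => (inner ℝ y e' : ℝ) ^ 2 := by fun_prop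
  exact this.measurable.ennreal_ofReal

theorem sw_integral {n : ℕ} (s : ℝ) (e' : En n) (f : En n → ℝ) :
    ∫ y, f y ∂(sw n s e') = ∫ y, f y * (inner ℝ y e') ^ 2 ∂(sphUnif n s) := by
  unfold sw
  rw [integral_withDensity_eq_integral_toReal_smul (sw_meas e')
    (Eventually.of_forall fun y => ENNReal.ofReal_lt_top)]
  congr 1
  ext y
  rw [ENNReal.toReal_ofReal (by positivity), smul_eq_mul, mul_comm]

theorem sw_finite {n : ℕ} (hn : 1 ≤ n) {s : ℝ} (hs : 0 ≤ s) (e' : En n) :
    IsFiniteMeasure (sw n s e') := by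
  have : IsProbabilityMeasure (sphUnif n s) := (fSPH1 n hn s).1
  have hc : Continuous fun y : En n => (inner ℝ y e' : ℝ) ^ 2 := by fun_prop
  have h1 : Integrable (fun y : En n => (1 : ℝ) * (inner ℝ y e' : ℝ) ^ 2) (sphUnif n s) :=
    h42_int hn hs (integrable_const 1) _ hc
  simp only [one_mul] at h1
  exact isFiniteMeasure_withDensity_ofReal h1.2

theorem sw_ae {n : ℕ} (hn : 1 ≤ n) {s : ℝ} (hs : 0 ≤ s) (e' x : En n) :
    ∀ᵐ y ∂(sw n s e'), |‖x‖ - s| ≤ dist x y :=
  (withDensity_absolutelyContinuous _ _).ae_le (dist_lower hn hs x)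

theorem sder : PDER → AVG → SDER := by
  intro hP hA n hn e he s r hs hr hrs
  have hn1 : 1 ≤ n := by omega
  have : IsProbabilityMeasure (sphUnif n s) := (fSPH1 n hn1 s).1
  obtain ⟨e', e'', ho⟩ := exists_three hn he
  have he' : ‖e'‖ = 1 := ho.1 1
  have he'' : ‖e''‖ = 1 := ho.1 2
  have hee' : inner ℝ e e' = 0 := ho.2 (show (0 : Fin 3) ≠ 1 by decide)
  have hee'' : inner ℝ e e'' = 0 := ho.2 (show (0 : Fin 3) ≠ 2 by decide)
  have he'e'' : inner ℝ e' e'' = 0 := ho.2 (show (1 : Fin 3) ≠ 2 by decide)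
  have : IsFiniteMeasure (sw n s e') := sw_finite hn1 hs e'
  set δ : ℝ := |r - s| with hδdef
  have hδ : 0 < δ := abs_pos.2 (sub_ne_zero.2 hrs)
  have hnr : ‖r • e‖ = r := by rw [norm_smul, he, mul_one, Real.norm_eq_abs, abs_of_pos hr]
  have hae : ∀ᵐ y ∂(sphUnif n s), δ ≤ dist (r • e) y := by
    have := dist_lower hn1 hs (r • e)
    rwa [hnr] at this
  have hae' : ∀ᵐ y ∂(sw n s e'), δ ≤ dist (r • e) y := by
    have := sw_ae hn1 hs e' (r • e)
    rwa [hnr] at this
  -- norm of the moved point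
  have hnorm : ∀ u : En n, ‖u‖ = 1 → inner ℝ e u = 0 → ∀ t : ℝ,
      ‖r • e + t • u‖ = Real.sqrt (r ^ 2 + t ^ 2) := by
    intro u hu heu t
    rw [← Real.sqrt_sq (norm_nonneg (r • e + t • u)), norm_add_sq_real, norm_smul, norm_smul,
      he, hu, real_inner_smul_left, real_inner_smul_right, heu]
    congr 1
    simp only [Real.norm_eq_abs, mul_one, sq_abs, mul_zero, add_zero]
  -- integrability at the point `x`
  have hint : ∀ (j : ℕ) (x : En n), ‖x‖ ≠ s →
      Integrable (fun y => om j (dist x y)) (sphUnif n s) := by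
    intro j x hx
    exact (fUD n j (sphUnif n s) inferInstance x e (|‖x‖ - s|)
      (abs_pos.2 (sub_ne_zero.2 hx)) he (dist_lower hn1 hs x)).1
  -- the formula for `FF` at the point `r e + t u`
  have hFF : ∀ (x : En n), x ≠ 0 → ‖x‖ ≠ s → inner ℝ x e' = 0 →
      FF e s ‖x‖ = U (sw n s e') 2 x - U (sphUnif n s) 1 x := by
    intro x hx0 hxs hxe
    have hxp : 0 < ‖x‖ := norm_pos_iff.2 hx0
    set e1 : En n := ‖x‖⁻¹ • x with he1def
    have he1 : ‖e1‖ = 1 := by
      rw [he1def, norm_smul, norm_inv, norm_norm, inv_mul_cancel₀ hxp.ne']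
    have hx1 : ‖x‖ • e1 = x := by
      rw [he1def, smul_smul, mul_inv_cancel₀ hxp.ne', one_smul]
    have h0 : inner ℝ e1 e' = 0 := by
      rw [he1def, real_inner_smul_left, hxe, mul_zero]
    have h1 := hint 1 x hxs
    have h2 := hint 2 x hxs
    have h3 := ff_formula hA hn he1 he' h0 hs (ρ := ‖x‖) (by rw [hx1]; exact h1)
      (by rw [hx1]; exact h2)
    rw [hx1] at h3
    rw [ff_rot he he1 s, ← h3]
    unfold U
    rw [sw_integral]
  have hball : ∀ t : ℝ, |t| < δ / 2 → ∀ᶠ t' in 𝓝 t, |t'| < δ / 2 := fun t ht =>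
    (isOpen_lt continuous_abs continuous_const).mem_nhds ht
  have hne : ∀ t : ℝ, |t| < δ → Real.sqrt (r ^ 2 + t ^ 2) ≠ s := by
    intro t ht
    have h1 : r ≤ Real.sqrt (r ^ 2 + t ^ 2) := Real.le_sqrt_of_sq_le (by nlinarith [sq_nonneg t])
    have h2 : Real.sqrt (r ^ 2 + t ^ 2) ≤ r + |t| := by
      refine Real.sqrt_le_iff.2 ⟨by positivity, ?_⟩
      have h3 := sq_abs t
      have h4 := abs_nonneg t
      nlinarith
    rcases lt_or_gt_of_ne hrs with h | h
    · have h4 : |r - s| = s - r := by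
        rw [abs_of_neg (by linarith)]
        ring
      rw [hδdef, h4] at ht
      intro h3
      rw [h3] at h2
      linarith
    · intro h3
      rw [h3] at h1
      linarith
  have hrne : r ≠ s := hrs
  have hi1 : Integrable (fun y => om 1 (dist (r • e) y)) (sphUnif n s) :=
    hint 1 (r • e) (by rw [hnr]; exact hrs)
  have hi2 : Integrable (fun y => om 2 (dist (r • e) y)) (sphUnif n s) :=
    hint 2 (r • e) (by rw [hnr]; exact hrs)
  have hi3 : Integrable (fun y => om 3 (dist (r • e) y)) (sphUnif n s) :=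
    hint 3 (r • e) (by rw [hnr]; exact hrs)
  have hi4 : Integrable (fun y => om 4 (dist (r • e) y)) (sphUnif n s) :=
    hint 4 (r • e) (by rw [hnr]; exact hrs)
  have hin : ∀ u : En n, inner ℝ e u = 0 → ∀ y : En n,
      (inner ℝ (r • e - y) u : ℝ) ^ 2 = (inner ℝ y u) ^ 2 := by
    intro u hu y
    rw [inner_sub_left, real_inner_smul_left, hu]
    ring
  constructor
  · -- second derivative
    obtain ⟨-, -, -, h4, h5⟩ := fUD n 0 (sphUnif n s) inferInstance (r • e) e' δ hδ he' hae
    have key := radial (g := PP e s) hr (half_pos hδ) ((hP n (by omega) e he s hs).1 r hr).1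
      (fun t ht => by
        have h6 := h4 t ht
        have e1 : (fun t : ℝ => PP e s (Real.sqrt (r ^ 2 + t ^ 2))) =
            fun t : ℝ => U (sphUnif n s) 0 (r • e + t • e') := by
          funext t
          rw [U_zero, pot_rot he, hnorm e' he' hee']
        rw [e1]
        exact h6) h5
    rw [key]
    congr 1
    rw [← ff_formula hA hn he he' hee' hs hi1 hi2,
      ← integral_sub (h42_int hn1 hs hi2 (fun y => (inner ℝ y e' : ℝ) ^ 2) (by fun_prop)) hi1]
    congr 1
    ext y
    rw [hin e' hee' y]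
  · -- third derivative
    obtain ⟨-, -, -, a4, a5⟩ := fUD n 2 (sw n s e') inferInstance (r • e) e'' δ hδ he'' hae'
    obtain ⟨-, -, -, b4, b5⟩ := fUD n 1 (sphUnif n s) inferInstance (r • e) e'' δ hδ he'' hae
    obtain ⟨-, -, -, c4, -⟩ := fUD n 2 (sw n s e') inferInstance (r • e) e δ hδ he hae'
    obtain ⟨-, -, -, d4, -⟩ := fUD n 1 (sphUnif n s) inferInstance (r • e) e δ hδ he hae
    have hder : ∃ D : ℝ, HasDerivAt (FF e s) D r := by
      have c5 := c4 0 (by simpa using half_pos hδ)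
      have d5 := d4 0 (by simpa using half_pos hδ)
      have h6 := c5.sub d5
      rw [← sub_self r] at h6
      have h7 := h6.comp_sub_const r r
      refine ⟨_, h7.congr_of_eventuallyEq ?_⟩
      have e1 : ∀ᶠ ρ in 𝓝 r, 0 < ρ := lt_mem_nhds hr
      have e2 : ∀ᶠ ρ in 𝓝 r, ρ ≠ s := isOpen_ne.mem_nhds hrs
      filter_upwards [e1, e2] with ρ h1 h2
      have hnρ : ‖ρ • e‖ = ρ := by
        rw [norm_smul, he, mul_one, Real.norm_eq_abs, abs_of_pos h1]
      have h3 := hFF (ρ • e) (by
        intro h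
        rw [h, norm_zero] at hnρ
        linarith) (by rw [hnρ]; exact h2) (by rw [real_inner_smul_left, hee', mul_zero])
      rw [hnρ] at h3
      rw [h3]
      simp only [Pi.sub_apply]
      rw [← add_smul, add_sub_cancel]
    obtain ⟨D, hD⟩ := hder
    have key := radial (g := FF e s) hr (half_pos hδ) hD
      (fun t ht => by
        have h6 := (a4 t ht).sub (b4 t ht)
        refine h6.congr_of_eventuallyEq ?_
        filter_upwards [hball t ht] with t' ht'
        have h7 := hnorm e'' he'' hee'' t'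
        have h8 : 0 < Real.sqrt (r ^ 2 + t' ^ 2) := Real.sqrt_pos.2 (by positivity)
        have h9 := hFF (r • e + t' • e'') (by
          intro h
          rw [h, norm_zero] at h7
          linarith) (by rw [h7]; exact hne t' (by linarith))
          (by rw [inner_add_left, real_inner_smul_left, real_inner_smul_left, hee',
                real_inner_comm, he'e'', mul_zero, mul_zero, add_zero])
        rw [h7] at h9
        rw [h9]
        rfl) (a5.sub b5)
    rw [key] at hD
    convert hD using 2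
    obtain ⟨-, m2⟩ := ((hA n hn e e' e'' ho s r hs).1) (om 4) hi4
    obtain ⟨m3, -⟩ := ((hA n hn e e' e'' ho s r hs).1) (om 3) hi3
    have ho' : Orthonormal ℝ ![e, e'', e'] := by
      have hinj : Function.Injective ![(0 : Fin 3), 2, 1] := by decide
      have h := ho.comp _ hinj
      have e1 : ![e, e'', e'] = ![e, e', e''] ∘ ![(0 : Fin 3), 2, 1] := by
        funext i
        fin_cases i <;> rfl
      rw [e1]
      exact h
    obtain ⟨m4, -⟩ := ((hA n hn e e'' e' ho' s r hs).1) (om 3) hi3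
    have q1 : Integrable (fun y => om 4 (dist (r • e) y) *
        ((inner ℝ y e' : ℝ) ^ 2 * (inner ℝ y e'' : ℝ) ^ 2)) (sphUnif n s) :=
      h42_int hn1 hs hi4 _ (by fun_prop)
    have q2 : Integrable (fun y => om 3 (dist (r • e) y) * (inner ℝ y e' : ℝ) ^ 2)
        (sphUnif n s) := h42_int hn1 hs hi3 _ (by fun_prop)
    have q3 : Integrable (fun y => om 3 (dist (r • e) y) * (inner ℝ y e'' : ℝ) ^ 2)
        (sphUnif n s) := h42_int hn1 hs hi3 _ (by fun_prop)
    have hrc : Continuous (rh e) := by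
      unfold rh
      fun_prop
    have q4 : Integrable (fun y => om 4 (dist (r • e) y) *
        (rh e y ^ 2 / (((n : ℝ) - 1) * ((n : ℝ) + 1)))) (sphUnif n s) :=
      h42_int hn1 hs hi4 _ (by fun_prop)
    have q5 : Integrable (fun y => om 3 (dist (r • e) y) * (rh e y / ((n : ℝ) - 1)))
        (sphUnif n s) := h42_int hn1 hs hi3 _ (by fun_prop)
    have r1 : ∫ y, (om (2 + 2) (dist (r • e) y) * (inner ℝ (r • e - y) e'') ^ 2 -
        om (2 + 1) (dist (r • e) y)) ∂(sw n s e') =
        ∫ y, om 4 (dist (r • e) y) * ((inner ℝ y e' : ℝ) ^ 2 * (inner ℝ y e'' : ℝ) ^ 2)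
          ∂(sphUnif n s) -
        ∫ y, om 3 (dist (r • e) y) * (inner ℝ y e' : ℝ) ^ 2 ∂(sphUnif n s) := by
      rw [sw_integral, ← integral_sub q1 q2]
      congr 1
      ext y
      rw [hin e'' hee'' y]
      ring
    have r2 : ∫ y, (om (1 + 2) (dist (r • e) y) * (inner ℝ (r • e - y) e'') ^ 2 -
        om (1 + 1) (dist (r • e) y)) ∂(sphUnif n s) =
        ∫ y, om 3 (dist (r • e) y) * (inner ℝ y e'' : ℝ) ^ 2 ∂(sphUnif n s) -
        ∫ y, om 2 (dist (r • e) y) ∂(sphUnif n s) := by
      rw [← integral_sub q3 hi2]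
      congr 1
      ext y
      rw [hin e'' hee'' y]
    rw [r1, r2, m2, m3, m4]
    have r3 : GG e s r = ∫ y, om 2 (dist (r • e) y) ∂(sphUnif n s) -
        2 * ∫ y, om 3 (dist (r • e) y) * (rh e y / ((n : ℝ) - 1)) ∂(sphUnif n s) +
        ∫ y, om 4 (dist (r • e) y) * (rh e y ^ 2 / (((n : ℝ) - 1) * ((n : ℝ) + 1)))
          ∂(sphUnif n s) := by
      have q6 : Integrable (fun y => om 2 (dist (r • e) y) -
          2 * (om 3 (dist (r • e) y) * (rh e y / ((n : ℝ) - 1)))) (sphUnif n s) :=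
        hi2.sub (q5.const_mul 2)
      rw [← integral_const_mul, ← integral_sub hi2 (q5.const_mul 2), ← integral_add q6 q4]
      unfold GG
      congr 1
      ext y
      ring
    rw [r3]
    ring

end Pool.Agent.Helper96.MM
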